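import Mathlib
import Pool.Agent.Q13.MB.Fin

/-!
# Integral points of bounded degree of the moduli spaces `M_{0,n}`: a quadratic bound

`X` is the Deligne–Mumford compactification of the moduli space `M_{0,n}` of `n` different points
of the projective line, `D` its boundary (a divisor with normal crossings), `k` a number field (for
example `ℚ`), `S` a finite set of primes, and `r ≥ 1` any degree. The coordinate ring of
`M_{0,n} = X ∖ D` over `ℤ` is generated by the cross ratios of four of the points, which are units
of this ring; so the `S`-integral points of `M_{0,n}` over `L` are the `n`-tuples of points of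
`ℙ¹(L)`, up to projective linear transformations, for which all cross ratios of four different
points are `S`-units.

For `n ≥ 8 r ^ 2 - 6 r + 2` there are only finitely many `S`-integral points of `M_{0,n}` over all
the extensions `L` of `k` of degree at most `r` (the field `L` varies with the point). For `r = 1`
these are all `n ≥ 4` (all `M_{0,n}` of positive dimension, the theorem of Siegel and Mahler); for
`r = 2` the bound is `22`, and in general it is of the second degree in `r`. The starting file `BoundedDegreePointsModuli` has `n > 256 r ^ 5` instead, and shows
that there can be infinitely many points for `n = 4 r - 2`.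

Proof. As in the starting file the theorem is reduced to a property of `q ≤ 2 r` ultrametrics `d_s`
on `m = n - 1` points, with values in an ordered abelian group and with `∑_s d_s(i, j) = 0` for all
`i ≠ j`: all of them have to be constant. This is proved here for `m ≥ (q - 1) (2 q - 1)`; the
parallel classes of an affine plane of order `q - 1` are `q` ultrametrics on `(q - 1)²` points for
which it fails, so the order of magnitude is the right one for this method. View each `d_s` as a
tree with `m + 1` leaves (the additional leaf is the point at infinity), where the leaves have no
length of their own, take the centroid as its root, and let `A_s(i, j)` be the height of the branch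
point of `i` and `j`. Then `∑_s A_s(i, i) = x_i + y_i` and `2 ∑_s A_s(i, j) = y_i + y_j` for
`i ≠ j`, where all `x_i ≥ 0`. As the components of the complement of the centroid have at most half
of the leaves and the `A_s` are positive semidefinite, test vectors which are constant on such a
component and on its complement show that the sum of all entries of `A_s` is at most `∑ x_i`
(`ones_bound`). A walk through the leaves in the order of the tree shows that the trace of `A_s` is
at most `2 ∑ y_i` (`diag_bound`). The sums over `s` of these inequalities are
`(m + 1) ∑ y_i ≤ (q - 1) ∑ x_i` and `∑ x_i ≤ (2 q - 1) ∑ y_i`, so all `A_s` vanish.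
-/

set_option autoImplicit false

namespace Pool.Agent.Results.MP_651af7_nt.BoundedDegreeModuliQuadratic

variable {K : Type} [Field K] {n : ℕ}

/-- The determinant of two vectors of `K²`; it is different from zero if and only if they are
homogeneous coordinates of two different points of the projective line. -/
def det2 (u v : Fin 2 → K) : K := u 0 * v 1 - u 1 * v 0

/-- The cross ratio of the points number `i, j, k, l`. -/
noncomputable def crossRatio (P : Fin n → Fin 2 → K) (i j k l : Fin n) : K :=
  det2 (P i) (P j) * det2 (P k) (P l) / (det2 (P i) (P k) * det2 (P j) (P l))

/-- `a` is an `S`-unit: a unit of the ring of those elements of `K` which become integral when they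
are multiplied by a power of the product of the primes in `S`. -/
def IsSUnit (S : Finset ℕ) (a : K) : Prop :=
  a ≠ 0 ∧ ∃ m : ℕ, IsIntegral ℤ ((∏ p ∈ S, (p : K)) ^ m * a) ∧
    IsIntegral ℤ ((∏ p ∈ S, (p : K)) ^ m * a⁻¹)

/-- `P` represents an `S`-integral point of `M_{0,n}` over `K`: the `n` points `P i` of the
projective line are different, and the cross ratio of any four of them is an `S`-unit. -/
structure IsIntegralPoint (S : Finset ℕ) (P : Fin n → Fin 2 → K) : Prop where
  distinct : ∀ i j, i ≠ j → det2 (P i) (P j) ≠ 0
  unit : ∀ f : Fin 4 → Fin n, Function.Injective f →
    IsSUnit S (crossRatio P (f 0) (f 1) (f 2) (f 3))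

/-- The `S`-integral points of `M_{0,n}` of degree at most `r` over `k`: the systems of the complex
numbers `φ (crossRatio P i j l m)` for the `S`-integral points `P` over the extensions `L` of `k`
of degree at most `r`, and the embeddings `φ` of `L`. -/
def integralPoints (k : Type) [Field k] (r n : ℕ) (S : Finset ℕ) :
    Set (Fin n → Fin n → Fin n → Fin n → ℂ) :=
  {c | ∃ (L : Type) (_ : Field L) (_ : NumberField L) (_ : Algebra k L) (P : Fin n → Fin 2 → L)
    (φ : L →+* ℂ), Module.finrank k L ≤ r ∧ IsIntegralPoint S P ∧
      c = fun i j l m => φ (crossRatio P i j l m)}

theorem integralPoints_eq (k : Type) [Field k] (r n : ℕ) (S : Finset ℕ) :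
    integralPoints k r n S = Pool.Agent.Y734.R.Ps k r n S := by
  ext c
  constructor
  · rintro ⟨L, iF, iN, iA, P, φ, hL, hP, hc⟩
    exact ⟨L, iF, iN, iA, P, φ, hL, ⟨hP.distinct, hP.unit⟩, hc⟩
  · rintro ⟨L, iF, iN, iA, P, φ, hL, hP, hc⟩
    exact ⟨L, iF, iN, iA, P, φ, hL, ⟨hP.1, hP.2⟩, hc⟩

/-- For `r ≥ 1` and `n ≥ 8 r ^ 2 - 6 r + 2`, every number field `k` and every finite set `S` of
primes, there are only finitely many `S`-integral points of `M_{0,n}` of degree at most `r` over
`k`. -/
theorem result (r n : ℕ) (hr : 1 ≤ r) (hn : 8 * r ^ 2 + 2 ≤ n + 6 * r) (k : Type) [Field k]
    [NumberField k] (S : Finset ℕ) (hS : ∀ p ∈ S, p.Prime) : (integralPoints k r n S).Finite := by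
  rw [integralPoints_eq]
  have h1 : r ≤ r ^ 2 := Nat.le_self_pow (by norm_num) r
  exact Pool.Agent.Q13.MB.finiteness r hr k S hS n (by omega) (by omega)

end Pool.Agent.Results.MP_651af7_nt.BoundedDegreeModuliQuadratic
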