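import Pool.Agent.Q13.GM.Div

set_option autoImplicit false

/-!
# The proximity function of divisors with normal crossings at the archimedean place

`X = ℙ^m` over `ℚ`, `S = {∞}`, rational points, `D` the sum of the hypersurfaces `{F i = 0}` over
`ℚ` of degrees at most `δ`.
-/

namespace Pool.Agent.Results.MP_651af7_nt.NormalCrossingsHighDegree

open MvPolynomial

/-- The coprime homogeneous coordinates of the rational points of projective space. -/
def Coprime {n : ℕ} (x : Fin n → ℤ) : Prop := ∀ g : ℤ, (∀ j, g ∣ x j) → IsUnit g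

/-- The multiplicative height of the rational point with coprime coordinates `x`. -/
noncomputable def H {n : ℕ} (x : Fin n → ℤ) : ℝ := ⨆ j, |(x j : ℝ)|

/-- The hypersurfaces `{F i = 0}` have normal crossings at the real points: for every real point
`P` the gradients at `P` of the `F i` that vanish at `P` are linearly independent. -/
def NormalCrossings {m q : ℕ} (F : Fin q → MvPolynomial (Fin (m + 1)) ℤ) : Prop :=
  ∀ P : Fin (m + 1) → ℝ, P ≠ 0 → LinearIndependent ℝ
    (fun (i : {i // aeval P (F i) = 0}) (j : Fin (m + 1)) => aeval P (pderiv j (F i.1)))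

/-- The proximity function `m_{∞,D}(x)` of `D = ∑ {F i = 0}`, with `F i` of degree `d i`, at the
rational point with coprime coordinates `x`. -/
noncomputable def proximity {m q : ℕ} (F : Fin q → MvPolynomial (Fin (m + 1)) ℤ) (d : Fin q → ℕ)
    (x : Fin (m + 1) → ℤ) : ℝ :=
  ∑ i, Real.log (H x ^ d i / |((eval x (F i) : ℤ) : ℝ)|)

/-- Let `D = ∑ {F i = 0}` be a divisor of `ℙ^m` with normal crossings at the real points, where
the `F i` are forms over `ℚ` of degrees between `1` and `δ`. For every `ε > 0` there are finitely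
many hypersurfaces over `ℚ` and a constant `C` such that
`m_{∞,D}(x) ≤ ((m - 1) δ + (1 + 1 / m) ^ m / δ ^ (m - 1) + ε) h(x) + C`
for all rational points `x` off `D` and off these hypersurfaces. -/
theorem result {m q : ℕ} (hm : 1 ≤ m) (F : Fin q → MvPolynomial (Fin (m + 1)) ℤ) (d : Fin q → ℕ)
    (hd : ∀ i, 1 ≤ d i) (hF : ∀ i, (F i).IsHomogeneous (d i)) (hNC : NormalCrossings F)
    (δ : ℕ) (hδ : 1 ≤ δ) (hdδ : ∀ i, d i ≤ δ) (ε : ℝ) (hε : 0 < ε) :
    ∃ (Z : Finset (MvPolynomial (Fin (m + 1)) ℤ)) (C : ℝ),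
      (∀ z ∈ Z, z ≠ 0 ∧ ∃ N, z.IsHomogeneous N) ∧ ∀ x : Fin (m + 1) → ℤ, Coprime x →
      (∀ i, eval x (F i) ≠ 0) → (∀ z ∈ Z, eval x z ≠ 0) →
      proximity F d x ≤
        ((m - 1) * δ + (1 + 1 / (m : ℝ)) ^ m / δ ^ (m - 1) + ε) * Real.log (H x) + C := by
  obtain ⟨Z, C, hZ, h⟩ := Pool.Agent.Q13.GM.prox F d hF hm hd (fun P hP => hNC P hP) hδ hdδ ε hε
  refine ⟨Z, C, hZ, fun x hx hFx hZx => ?_⟩
  have hx0 : x ≠ 0 := by
    intro h0
    have := hx 0 (fun j => by rw [h0]; simp)
    exact not_isUnit_zero this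
  have h1 := h x hx0 hFx hZx
  have h2 : proximity F d x = ∑ i, Pool.Agent.Q13.GM.lam (Pool.Agent.Q13.GM.cf (F i)) (d i) x := by
    refine Finset.sum_congr rfl fun i _ => ?_
    unfold Pool.Agent.Q13.GM.lam
    rw [Pool.Agent.Q13.GM.cf_rv]
    rfl
  rw [h2]
  exact h1

end Pool.Agent.Results.MP_651af7_nt.NormalCrossingsHighDegree
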