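import Mathlib
import Pool.Agent.Q4.Opt.SchO

set_option autoImplicit false

/-!
# The subspace theorem with algebraic functions as coefficients, over the nearly optimal rational approximations of an algebraic number

The target hyperplanes `Σⱼ ρᵢⱼ(q, p) Zⱼ = 0`, where `ρᵢⱼ(q, p)` are roots of polynomials
`Pᵢⱼ(q, p, Y)`, move as fast as the points: `p / q` runs through the convergents, or more generally
through all nearly optimal rational approximations, of a real algebraic number of degree at least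
three, and the height of `(Z₁ : ⋯ : Zᵣ)` is at most a power of `q`.
-/

namespace Pool.Agent.Results.MP_651af7_nt.SubspaceAtConvergents

open MvPolynomial

/-- the point `(q, p)`; the variable `none` is the one of `q`, the variable `some ()` the one
of `p` -/
def point (p : ℤ) (q : ℕ) : Option Unit → ℤ := fun o => o.elim (q : ℤ) (fun _ => p)

/-- `p / q` is a nearly optimal approximation of `θ`: `q = a b`, with `a` composed of primes of `S`
and `b |θ q - p| ≤ q ^ η`. For `S = ∅` this is `|θ - p / q| ≤ q ^ (η - 2)`. -/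
def NearlyOptimal (S : Finset ℕ) (θ η : ℝ) (p : ℤ) (q : ℕ) : Prop :=
  ∃ a b : ℕ, q = a * b ∧ a.primeFactors ⊆ S ∧ (b : ℝ) * |θ * q - p| ≤ (q : ℝ) ^ η

/-- the polynomial `P(q, p, Y)` -/
noncomputable def fibre (P : Polynomial (MvPolynomial (Option Unit) ℤ)) (p : ℤ) (q : ℕ) :
    Polynomial ℂ :=
  P.map ((Int.castRingHom ℂ).comp (eval (point p q)))

/-- the value at `(1, θ)` of the homogeneous part of degree `m` -/
noncomputable def atInfinity (θ : ℝ) (m : ℕ) (F : MvPolynomial (Option Unit) ℤ) : ℝ :=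
  aeval (fun o : Option Unit => (o.elim 1 (fun _ => θ) : ℝ)) (homogeneousComponent m F)

/-- the polynomial `Σᵢ topᵢ(1, θ) Yⁱ`, where `topᵢ` is the homogeneous part of degree
`(deg P - i) D + d` of the `i`-th coefficient of `P` -/
noncomputable def fibreAtInfinity (θ : ℝ) (D d : ℕ)
    (P : Polynomial (MvPolynomial (Option Unit) ℤ)) : Polynomial ℝ :=
  ∑ i ∈ Finset.range (P.natDegree + 1),
    Polynomial.C (atInfinity θ ((P.natDegree - i) * D + d) (P.coeff i)) * Polynomial.X ^ i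

/-- `P` defines algebraic functions unramified and with at most a pole of order `D` at the point
`(0 : 1 : θ)` at infinity: the `i`-th coefficient of `P` has degree at most `(deg P - i) D + d`, the part
of degree `d` of the leading one does not vanish at `(1, θ)`, and the fibre at infinity is separable -/
def Unramified (θ : ℝ) (D d : ℕ) (P : Polynomial (MvPolynomial (Option Unit) ℤ)) : Prop :=
  (∀ i, (P.coeff i).totalDegree ≤ (P.natDegree - i) * D + d) ∧ atInfinity θ d P.leadingCoeff ≠ 0 ∧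
    (fibreAtInfinity θ D d P).Separable

/-- the `S`-part of an integer -/
def sPart (S : Finset ℕ) (z : ℤ) : ℕ := ∏ p ∈ S, p ^ (z.natAbs.factorization p)

/-- Let `θ` be a real algebraic number of degree at least `3`, `S` a finite set of primes,
`Pᵢⱼ ∈ ℤ[X₀, X₁][Y]` (`1 ≤ i, j ≤ r`) unramified over the point `(0 : 1 : θ)` at infinity with at most
poles of order `Dⱼ` there, `K ∈ ℕ` and `ε > 0`. There are `η > 0`, `N` and a finite set `A` of nonzero
vectors `(B₁, …, Bᵣ)` of rational polynomials in `X₀, X₁` such that for all nearly optimal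
approximations `p / q` of `θ` with `q ≥ N`, all roots `ρᵢⱼ ∈ ℂ` of `Pᵢⱼ(q, p, Y)` with
`|det (ρᵢⱼ)| ≥ q ^ (D₁ + ⋯ + Dᵣ - η)` and all integers `V₁, …, Vᵣ` with `|Vⱼ| ≤ q ^ K`: either
`B₁(q, p) V₁ + ⋯ + Bᵣ(q, p) Vᵣ = 0` for some `B ∈ A`, or
`∏ᵢ |ρᵢ₁ V₁ + ⋯ + ρᵢᵣ Vᵣ| > q ^ (D₁ + ⋯ + Dᵣ - ε) [V₁]_S ⋯ [Vᵣ]_S`. -/
theorem result (θ : ℝ) (halg : IsAlgebraic ℚ θ) (hθ : 3 ≤ (minpoly ℚ θ).natDegree) (S : Finset ℕ)
    (hS : ∀ p ∈ S, p.Prime) (r : ℕ)
    (P : Fin r → Fin r → Polynomial (MvPolynomial (Option Unit) ℤ))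
    (D : Fin r → ℕ) (d : Fin r → Fin r → ℕ) (hP : ∀ i j, Unramified θ (D j) (d i j) (P i j))
    (K : ℕ) (ε : ℝ) (hε : 0 < ε) :
    ∃ (η : ℝ) (N : ℕ) (A : Finset (Fin r → MvPolynomial (Option Unit) ℚ)), 0 < η ∧
      (∀ B ∈ A, B ≠ 0) ∧
      ∀ q ≥ N, ∀ p : ℤ, NearlyOptimal S θ η p q → ∀ ρ : Fin r → Fin r → ℂ,
        (∀ i j, (fibre (P i j) p q).IsRoot (ρ i j)) →
        (q : ℝ) ^ (∑ j, (D j : ℝ) - η) ≤ ‖(Matrix.of ρ).det‖ →
        ∀ V : Fin r → ℤ, (∀ j, |V j| ≤ (q : ℤ) ^ K) →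
        (∃ B ∈ A, ∑ j, (V j : ℚ) * aeval (fun i => ((point p q i : ℤ) : ℚ)) (B j) = 0) ∨
        (q : ℝ) ^ (∑ j, (D j : ℝ) - ε) * ∏ j, (sPart S (V j) : ℝ)
          < ∏ i, ‖∑ j, ρ i j * V j‖ := by
  obtain ⟨η, N, A, hη, hA, h⟩ := Pool.Agent.Q4.Opt.schO S hS (fun _ => θ) halg hθ P D d
    (fun i j => (hP i j).2.1) (fun i j => (hP i j).1) (fun i j => (hP i j).2.2) K ε hε
  refine ⟨η, N, A, hη, hA, fun q hq p hp ρ hρ hdet V hV => ?_⟩
  by_cases hc : (q : ℝ) ^ (∑ j, (D j : ℝ) - ε) * ∏ j, (sPart S (V j) : ℝ)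
          < ∏ i, ‖∑ j, ρ i j * V j‖
  · exact Or.inr hc
  · exact Or.inl (h q hq (fun _ => p) hp ρ hρ hdet V hV (not_lt.1 hc))

end Pool.Agent.Results.MP_651af7_nt.SubspaceAtConvergents
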